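import Pool.Agent.W_MP_88e59f_gt.Exists

/-!
# A compact scattered space that is hereditarily wD but not bisequential

The definitions `Scattered`, `PropertyWD`, `HereditarilyWD` and `Bisequential` are in
`Pool/Agent/W_MP_88e59f_gt/Defs.lean`.
-/

set_option autoImplicit false

open Pool.Agent.W_MP_88e59f_gt

namespace Pool.Agent.Results.MP_88e59f_gt.ZFCExample

/-- There is a compact Hausdorff, Fréchet-Urysohn, scattered space which satisfies wD hereditarily
but is not bisequential. -/
theorem result : ∃ (X : Type) (_ : TopologicalSpace X),
    T2Space X ∧ CompactSpace X ∧ FrechetUrysohnSpace X ∧ Scattered X ∧ HereditarilyWD X ∧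
      ¬ Bisequential X :=
  main

end Pool.Agent.Results.MP_88e59f_gt.ZFCExample
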